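import Mathlib

/-!
# Integers with a unique minimal generalized Markoff triple: the upper bound

For `m > 1` a minimal `m`-Markoff triple is a triple of positive integers `a ≤ b ≤ c` with
`a² + b² + c² = 3 a b c + m` and `c ≥ 3 a b`. Let `U` be the set of the `m > 1` with exactly one
minimal triple. We prove `#{m ∈ U : m ≤ x} = O(x / log x)`.
-/

namespace Pool.Agent.Results.MP_3400ab_nt.UpperBound

open Filter Asymptotics

/-- the minimal `m`-Markoff triples `(a, b, c)`: positive integers `a ≤ b ≤ c` with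
`a² + b² + c² = 3 a b c + m` and `c ≥ 3 a b` -/
def Minimal (m : ℕ) : Set (ℕ × ℕ × ℕ) :=
  {t | 1 ≤ t.1 ∧ t.1 ≤ t.2.1 ∧ t.2.1 ≤ t.2.2 ∧
    t.1 ^ 2 + t.2.1 ^ 2 + t.2.2 ^ 2 = 3 * t.1 * t.2.1 * t.2.2 + m ∧ 3 * t.1 * t.2.1 ≤ t.2.2}

/-- the integers `m > 1` with exactly one minimal `m`-Markoff triple -/
def U : Set ℕ := {m | 1 < m ∧ (Minimal m).ncard = 1}

/-- a second representation as a sum of two squares -/
theorem second_rep {a b p : ℕ} (ha : 1 ≤ a) (hb : 1 ≤ b) (hab : Nat.Coprime a b)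
    (hp : p.Prime) (hp2 : p ≠ 2) (hd : p ∣ a ^ 2 + b ^ 2) :
    (a ^ 2 + b ^ 2 = p ∨ a ^ 2 + b ^ 2 = 2 * p ∨ a ^ 2 + b ^ 2 = p * p) ∨
    ∃ A B : ℕ, 1 ≤ A ∧ 1 ≤ B ∧ A ^ 2 + B ^ 2 = a ^ 2 + b ^ 2 ∧ A ≠ a ∧ A ≠ b := by
  have h1 : IsSquare (-1 : ZMod (a ^ 2 + b ^ 2)) :=
    ZMod.isSquare_neg_one_of_eq_sq_add_sq_of_coprime rfl hab
  have h2 : IsSquare (-1 : ZMod p) := ZMod.isSquare_neg_one_of_dvd hd h1
  obtain ⟨s0, t0, hst⟩ := Nat.eq_sq_add_sq_of_isSquare_mod_neg_one h2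
  have hpZ : Prime (p : ℤ) := Nat.prime_iff_prime_int.mp hp
  have hp0 : (0 : ℤ) < p := by exact_mod_cast hp.pos
  obtain ⟨k, hk⟩ := hd
  have hkZ : (a : ℤ) ^ 2 + (b : ℤ) ^ 2 = p * k := by exact_mod_cast hk
  have hstZ : (p : ℤ) = (s0 : ℤ) ^ 2 + (t0 : ℤ) ^ 2 := by exact_mod_cast hst
  -- choose the sign of `t`
  obtain ⟨s, t, hst', hdiv⟩ : ∃ s t : ℤ, (p : ℤ) = s ^ 2 + t ^ 2 ∧ (p : ℤ) ∣ a * s + b * t := by
    have : (p : ℤ) ∣ (a * s0 + b * t0) * (a * s0 + b * (-t0)) := by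
      refine ⟨(s0 : ℤ) ^ 2 * k - (b : ℤ) ^ 2, ?_⟩
      have e1 : (a : ℤ) ^ 2 = p * k - (b : ℤ) ^ 2 := by linarith
      have e2 : (t0 : ℤ) ^ 2 = p - (s0 : ℤ) ^ 2 := by linarith
      calc ((a : ℤ) * s0 + b * t0) * (a * s0 + b * (-t0))
          = (a : ℤ) ^ 2 * (s0 : ℤ) ^ 2 - (b : ℤ) ^ 2 * (t0 : ℤ) ^ 2 := by ring
        _ = p * ((s0 : ℤ) ^ 2 * k - (b : ℤ) ^ 2) := by rw [e1, e2]; ring
    rcases hpZ.dvd_or_dvd this with h | h
    · exact ⟨s0, t0, hstZ, h⟩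
    · exact ⟨s0, -t0, by rw [hstZ]; ring, h⟩
  obtain ⟨c, hc⟩ := hdiv
  have hdiv2 : (p : ℤ) ∣ a * t - b * s := by
    have : (p : ℤ) ∣ (a * t - b * s) ^ 2 := by
      refine ⟨p * k - p * c ^ 2, ?_⟩
      have e : ((a : ℤ) * t - b * s) ^ 2 = (a ^ 2 + b ^ 2) * (s ^ 2 + t ^ 2) - (a * s + b * t) ^ 2 := by
        ring
      rw [e, hkZ, ← hst', hc]
      ring
    exact hpZ.dvd_of_dvd_pow this
  obtain ⟨d, hd'⟩ := hdiv2
  have ea : (a : ℤ) = c * s + d * t := by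
    have : (p : ℤ) * a = p * (c * s + d * t) := by
      calc (p : ℤ) * a = a * (s ^ 2 + t ^ 2) := by rw [← hst']; ring
        _ = (a * s + b * t) * s + (a * t - b * s) * t := by ring
        _ = p * (c * s + d * t) := by rw [hc, hd']; ring
    exact mul_left_cancel₀ hp0.ne' this
  have eb : (b : ℤ) = c * t - d * s := by
    have : (p : ℤ) * b = p * (c * t - d * s) := by
      calc (p : ℤ) * b = b * (s ^ 2 + t ^ 2) := by rw [← hst']; ring
        _ = (a * s + b * t) * t - (a * t - b * s) * s := by ring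
        _ = p * (c * t - d * s) := by rw [hc, hd']; ring
    exact mul_left_cancel₀ hp0.ne' this
  have hn : (a : ℤ) ^ 2 + (b : ℤ) ^ 2 = (c ^ 2 + d ^ 2) * p := by
    rw [ea, eb, hst']; ring
  have hcop : IsCoprime c d := by
    have h3 : IsCoprime (a : ℤ) (b : ℤ) := Nat.isCoprime_iff_coprime.mpr hab
    obtain ⟨u, v, huv⟩ := h3
    exact ⟨u * s + v * t, u * t - v * s, by rw [← huv, ea, eb]; ring⟩
  have hstcop : IsCoprime s t := by
    by_contra hcon
    have hg : Int.gcd s t ≠ 1 := fun h => hcon (Int.isCoprime_iff_gcd_eq_one.mpr h)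
    have g1 : ((Int.gcd s t : ℕ) : ℤ) ∣ s := Int.gcd_dvd_left _ _
    have g2 : ((Int.gcd s t : ℕ) : ℤ) ∣ t := Int.gcd_dvd_right _ _
    have g3 : ((Int.gcd s t : ℕ) : ℤ) ^ 2 ∣ p := by
      rw [hst']
      exact dvd_add (pow_dvd_pow_of_dvd g1 2) (pow_dvd_pow_of_dvd g2 2)
    have g4 : (Int.gcd s t) ^ 2 ∣ p := by exact_mod_cast g3
    rcases (Nat.dvd_prime hp).mp g4 with h | h
    · exact hg (by nlinarith [Nat.pos_of_ne_zero (fun h0 : Int.gcd s t = 0 => by simp [h0] at h)])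
    · have h5 : Int.gcd s t ∣ p := (dvd_pow_self _ two_ne_zero).trans g4
      rcases (Nat.dvd_prime hp).mp h5 with h6 | h6
      · exact hg h6
      · rw [h6] at h
        have := hp.two_le
        nlinarith
  have hs0 : s ≠ 0 := by
    rintro rfl
    have h5 : IsUnit t := isCoprime_zero_left.mp hstcop
    have h6 : t ^ 2 = 1 := by
      rcases Int.isUnit_iff.mp h5 with h | h <;> rw [h] <;> norm_num
    have : (p : ℤ) = 1 := by rw [hst', h6]; norm_num
    have h7 : p = 1 := by exact_mod_cast this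
    exact hp.one_lt.ne' h7
  have ht0 : t ≠ 0 := by
    rintro rfl
    have h5 : IsUnit s := isCoprime_zero_right.mp hstcop
    have h6 : s ^ 2 = 1 := by
      rcases Int.isUnit_iff.mp h5 with h | h <;> rw [h] <;> norm_num
    have : (p : ℤ) = 1 := by rw [hst', h6]; norm_num
    have h7 : p = 1 := by exact_mod_cast this
    exact hp.one_lt.ne' h7
  by_cases hc0 : c = 0
  · left; left
    subst hc0
    have h5 : IsUnit d := isCoprime_zero_left.mp hcop
    have h6 : d ^ 2 = 1 := by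
      rcases Int.isUnit_iff.mp h5 with h | h <;> rw [h] <;> norm_num
    have h7 : (a : ℤ) ^ 2 + (b : ℤ) ^ 2 = p := by rw [hn, h6]; ring
    exact_mod_cast h7
  by_cases hd0 : d = 0
  · left; left
    subst hd0
    have h5 : IsUnit c := isCoprime_zero_right.mp hcop
    have h6 : c ^ 2 = 1 := by
      rcases Int.isUnit_iff.mp h5 with h | h <;> rw [h] <;> norm_num
    have h7 : (a : ℤ) ^ 2 + (b : ℤ) ^ 2 = p := by rw [hn, h6]; ring
    exact_mod_cast h7
  -- the second representation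
  set a2 : ℤ := c * s - d * t with ha2
  set b2 : ℤ := c * t + d * s with hb2
  have hab2 : a2 ^ 2 + b2 ^ 2 = (a : ℤ) ^ 2 + (b : ℤ) ^ 2 := by
    rw [hn, hst', ha2, hb2]; ring
  by_cases hz : a2 = 0 ∨ b2 = 0
  · left; right; right
    -- `c² = t²` and `d² = s²`, or `c² = s²` and `d² = t²`
    have key : ∀ {x y u v : ℤ}, IsCoprime x y → IsCoprime u v → x * u = y * v →
        x ^ 2 = v ^ 2 ∧ y ^ 2 = u ^ 2 := by
      intro x y u v h1 h2 h3
      have e1 : x ∣ v := h1.dvd_of_dvd_mul_left ⟨u, h3.symm⟩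
      have e2 : v ∣ x := h2.symm.dvd_of_dvd_mul_right ⟨y, by rw [h3]; ring⟩
      have e3 : y ∣ u := h1.symm.dvd_of_dvd_mul_left ⟨v, h3⟩
      have e4 : u ∣ y := h2.dvd_of_dvd_mul_right ⟨x, by rw [← h3]; ring⟩
      constructor
      · exact Int.natAbs_eq_iff_sq_eq.mp (Nat.dvd_antisymm (Int.natAbs_dvd_natAbs.mpr e1)
          (Int.natAbs_dvd_natAbs.mpr e2))
      · exact Int.natAbs_eq_iff_sq_eq.mp (Nat.dvd_antisymm (Int.natAbs_dvd_natAbs.mpr e3)
          (Int.natAbs_dvd_natAbs.mpr e4))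
    have h9 : c ^ 2 + d ^ 2 = p := by
      rcases hz with h | h
      · obtain ⟨e1, e2⟩ := key hcop hstcop (by linarith : c * s = d * t)
        rw [hst', e1, e2]; ring
      · obtain ⟨e1, e2⟩ := key hcop (hstcop.symm.neg_right) (by linarith : c * t = d * (-s))
        rw [hst', e1, e2]; ring
    have h7 : (a : ℤ) ^ 2 + (b : ℤ) ^ 2 = p * p := by rw [hn, h9]
    exact_mod_cast h7
  push Not at hz
  obtain ⟨hz1, hz2⟩ := hz
  by_cases hcd : c ^ 2 = d ^ 2
  · left; right; left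
    have e1 : c ∣ d := Int.natAbs_dvd_natAbs.mp (by rw [Int.natAbs_eq_iff_sq_eq.mpr hcd])
    have h5 : IsUnit c := hcop.isUnit_of_dvd' dvd_rfl e1
    have h6 : c ^ 2 = 1 := by
      rcases Int.isUnit_iff.mp h5 with h | h <;> rw [h] <;> norm_num
    have h7 : (a : ℤ) ^ 2 + (b : ℤ) ^ 2 = 2 * p := by rw [hn, ← hcd, h6]; ring
    exact_mod_cast h7
  right
  refine ⟨a2.natAbs, b2.natAbs, Int.natAbs_pos.mpr hz1, Int.natAbs_pos.mpr hz2, ?_, ?_, ?_⟩
  · have : ((a2.natAbs ^ 2 + b2.natAbs ^ 2 : ℕ) : ℤ) = ((a ^ 2 + b ^ 2 : ℕ) : ℤ) := by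
      push_cast
      rw [sq_abs, sq_abs]
      exact hab2
    exact_mod_cast this
  · intro h
    have h1 : a2 ^ 2 = (a : ℤ) ^ 2 := by
      rw [← Int.natAbs_sq, h]
    have h2 : c * s * (d * t) = 0 := by
      rw [ea, ha2] at h1
      have e : (c * s + d * t) ^ 2 - (c * s - d * t) ^ 2 = 4 * (c * s * (d * t)) := by ring
      rw [h1, sub_self] at e
      linarith
    rcases mul_eq_zero.mp h2 with h | h
    · exact (mul_ne_zero hc0 hs0) h
    · exact (mul_ne_zero hd0 ht0) h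
  · intro h
    have h1 : a2 ^ 2 = (b : ℤ) ^ 2 := by
      rw [← Int.natAbs_sq, h]
    have h2 : (c ^ 2 - d ^ 2) * (s ^ 2 - t ^ 2) = 0 := by
      rw [eb, ha2] at h1
      have e : (c * s - d * t) ^ 2 - (c * t - d * s) ^ 2 = (c ^ 2 - d ^ 2) * (s ^ 2 - t ^ 2) := by
        ring
      rw [h1, sub_self] at e
      exact e.symm
    rcases mul_eq_zero.mp h2 with h | h
    · exact hcd (by linarith)
    · have h3 : s ^ 2 = t ^ 2 := by linarith
      have h4 : (p : ℤ) = 2 * s ^ 2 := by rw [hst', ← h3]; ring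
      have h5 : (2 : ℤ) ∣ p := ⟨_, h4⟩
      have h6 : 2 ∣ p := by exact_mod_cast h5
      exact hp2 ((Nat.prime_dvd_prime_iff_eq Nat.prime_two hp).mp h6).symm

/-- the possible `m`: a square times a prime, twice this, a square, or `3 a² + 3 a³` -/
def V : Set ℕ := {m | (∃ g p : ℕ, 1 ≤ g ∧ p.Prime ∧ m = g ^ 2 * p) ∨
  (∃ g p : ℕ, 1 ≤ g ∧ p.Prime ∧ m = 2 * (g ^ 2 * p)) ∨ (∃ k : ℕ, m = k ^ 2) ∨
  (∃ a : ℕ, m = 3 * a ^ 2 + 3 * a ^ 3)}

/-- a representation gives a minimal triple -/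
theorem rep_minimal {m A B : ℕ} (hA : 1 ≤ A) (hAB : A ≤ B) (h : A ^ 2 + B ^ 2 = m) :
    (A, B, 3 * A * B) ∈ Minimal m := by
  refine ⟨hA, hAB, ?_, ?_, le_refl _⟩
  · show B ≤ 3 * A * B
    nlinarith
  · show A ^ 2 + B ^ 2 + (3 * A * B) ^ 2 = 3 * A * B * (3 * A * B) + m
    rw [← h]; ring

theorem U_sub_V : U ⊆ V := by
  rintro m ⟨hm, hu⟩
  obtain ⟨⟨a, b, c⟩, ht⟩ := Set.ncard_eq_one.mp hu
  have hmem : (a, b, c) ∈ Minimal m := by rw [ht]; rfl
  have huniq : ∀ t ∈ Minimal m, t = (a, b, c) := by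
    intro t h
    rw [ht] at h
    exact h
  obtain ⟨h1, h2, h3, h4, h5⟩ := hmem
  simp only at h1 h2 h3 h4 h5
  obtain ⟨φ, hφ⟩ := Nat.exists_eq_add_of_le h5
  have hm' : m = a ^ 2 + b ^ 2 + φ ^ 2 + 3 * a * b * φ := by
    have : a ^ 2 + b ^ 2 + (3 * a * b + φ) ^ 2 = 3 * a * b * (3 * a * b + φ) + m := by
      rw [← hφ]; exact h4
    nlinarith
  rcases Nat.eq_zero_or_pos φ with h0 | hpos
  · -- `m = a² + b²`
    subst h0
    have hsum : a ^ 2 + b ^ 2 = m := by rw [hm']; ring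
    set g := Nat.gcd a b with hg
    have hgpos : 0 < g := Nat.gcd_pos_of_pos_left _ h1
    obtain ⟨a1, ha1⟩ : g ∣ a := Nat.gcd_dvd_left _ _
    obtain ⟨b1, hb1⟩ : g ∣ b := Nat.gcd_dvd_right _ _
    have hcop : Nat.Coprime a1 b1 := by
      have := Nat.coprime_div_gcd_div_gcd (m := a) (n := b) hgpos
      rwa [← hg, ha1, hb1, Nat.mul_div_cancel_left _ hgpos, Nat.mul_div_cancel_left _ hgpos] at this
    have ha1' : 1 ≤ a1 := Nat.pos_of_ne_zero (by rintro rfl; simp at ha1; omega)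
    have hb1' : 1 ≤ b1 := Nat.pos_of_ne_zero (by rintro rfl; simp at hb1; omega)
    have hmn : m = g ^ 2 * (a1 ^ 2 + b1 ^ 2) := by
      rw [← hsum, ha1, hb1]; ring
    by_cases hodd : ∃ p : ℕ, p.Prime ∧ p ≠ 2 ∧ p ∣ a1 ^ 2 + b1 ^ 2
    · obtain ⟨p, hp, hp2, hd⟩ := hodd
      rcases second_rep ha1' hb1' hcop hp hp2 hd with h | ⟨A, B, hA, hB, hAB, hAa, hAb⟩
      · rcases h with h | h | h
        · exact Or.inl ⟨g, p, hgpos, hp, by rw [hmn, h]⟩
        · exact Or.inr (Or.inl ⟨g, p, hgpos, hp, by rw [hmn, h]; ring⟩)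
        · exact Or.inr (Or.inr (Or.inl ⟨g * p, by rw [hmn, h]; ring⟩))
      · exfalso
        have hrep : (g * A) ^ 2 + (g * B) ^ 2 = m := by rw [hmn, ← hAB]; ring
        have hgA : 1 ≤ g * A := Nat.mul_pos hgpos hA
        have hgB : 1 ≤ g * B := Nat.mul_pos hgpos hB
        rcases le_total (g * A) (g * B) with hle | hle
        · have := huniq _ (rep_minimal hgA hle hrep)
          simp only [Prod.mk.injEq] at this
          rw [ha1] at this
          exact hAa (Nat.eq_of_mul_eq_mul_left hgpos this.1)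
        · have := huniq _ (rep_minimal hgB hle (by rw [← hrep]; ring))
          simp only [Prod.mk.injEq] at this
          have h7 := this.2.1
          rw [hb1] at h7
          exact hAb (Nat.eq_of_mul_eq_mul_left hgpos h7)
    · -- a power of two
      push Not at hodd
      left
      refine ⟨g, 2, hgpos, Nat.prime_two, ?_⟩
      rw [hmn]
      congr 1
      have hne : a1 ^ 2 + b1 ^ 2 ≠ 0 := by positivity
      have hne1 : a1 ^ 2 + b1 ^ 2 ≠ 1 := by
        have : 1 ≤ a1 ^ 2 := Nat.one_le_pow _ _ ha1'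
        have : 1 ≤ b1 ^ 2 := Nat.one_le_pow _ _ hb1'
        omega
      have h2d : 2 ∣ a1 ^ 2 + b1 ^ 2 := by
        have h7 := Nat.minFac_prime hne1
        have h8 := Nat.minFac_dvd (a1 ^ 2 + b1 ^ 2)
        by_contra hcon
        refine hodd _ h7 ?_ h8
        rintro h9
        rw [h9] at h8
        exact hcon h8
      have hpar : a1 % 2 = 1 ∧ b1 % 2 = 1 := by
        have h7 : ¬ (2 ∣ a1 ∧ 2 ∣ b1) := by
          rintro ⟨h8, h9⟩
          have := Nat.dvd_gcd h8 h9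
          rw [hcop] at this
          omega
        have h10 : (a1 ^ 2 + b1 ^ 2) % 2 = 0 := Nat.mod_eq_zero_of_dvd h2d
        rcases Nat.mod_two_eq_zero_or_one a1 with h | h <;>
          rcases Nat.mod_two_eq_zero_or_one b1 with h' | h'
        · exact absurd ⟨Nat.dvd_of_mod_eq_zero h, Nat.dvd_of_mod_eq_zero h'⟩ h7
        · rw [Nat.add_mod, Nat.pow_mod, Nat.pow_mod b1, h, h'] at h10
          norm_num at h10
        · rw [Nat.add_mod, Nat.pow_mod, Nat.pow_mod b1, h, h'] at h10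
          norm_num at h10
        · exact ⟨h, h'⟩
      obtain ⟨x, hx⟩ : ∃ x, a1 = 2 * x + 1 := ⟨a1 / 2, by omega⟩
      obtain ⟨y, hy⟩ : ∃ y, b1 = 2 * y + 1 := ⟨b1 / 2, by omega⟩
      set z := a1 ^ 2 + b1 ^ 2 with hz
      have hz' : z = 2 * (2 * (x ^ 2 + x + y ^ 2 + y) + 1) := by rw [hz, hx, hy]; ring
      set w := 2 * (x ^ 2 + x + y ^ 2 + y) + 1 with hw
      have hw1 : w = 1 := by
        by_contra hcon
        have h7 := Nat.minFac_prime hcon
        have h8 := Nat.minFac_dvd w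
        refine hodd _ h7 ?_ (h8.trans ⟨2, by rw [hz']; ring⟩)
        rintro h9
        rw [h9] at h8
        omega
      rw [hz', hw1]
  · -- `φ > 0`
    have hswap : ∀ u v w : ℕ, 1 ≤ u → u ≤ v → 1 ≤ w →
        u ^ 2 + v ^ 2 + w ^ 2 + 3 * u * v * w = m → (u, v, 3 * u * v + w) ∈ Minimal m := by
      intro u v w hu huv hw h
      refine ⟨hu, huv, ?_, ?_, Nat.le_add_right _ _⟩
      · show v ≤ 3 * u * v + w
        nlinarith
      · show u ^ 2 + v ^ 2 + (3 * u * v + w) ^ 2 = 3 * u * v * (3 * u * v + w) + m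
        rw [← h]; ring
    -- exchange `b` and `φ`
    have e1 : b = φ := by
      rcases le_total a φ with h | h
      · have := huniq _ (hswap a φ b h1 h (by omega) (by rw [hm']; ring))
        simp only [Prod.mk.injEq] at this
        exact this.2.1.symm
      · have := huniq _ (hswap φ a b hpos h (by omega) (by rw [hm']; ring))
        simp only [Prod.mk.injEq] at this
        omega
    have e2 : a = b := by
      have := huniq _ (hswap b φ a (by omega) (by omega) h1 (by rw [hm']; ring))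
      simp only [Prod.mk.injEq] at this
      exact this.1.symm
    refine Or.inr (Or.inr (Or.inr ⟨a, ?_⟩))
    rw [hm', ← e1, ← e2]
    ring

/-- the number of primes `p` with `g² p ≤ x` -/
theorem prime_bound {x : ℝ} (hx : 2 ≤ x) {g : ℕ} (hg : 1 ≤ g) :
    (Nat.primeCounting ⌊x / (g : ℝ) ^ 2⌋₊ : ℝ) ≤
      10 * (x / Real.log x) * (g : ℝ) ^ (-(3 / 2) : ℝ) := by
  have hx0 : 0 < x := by linarith
  have hlog : 0 < Real.log x := Real.log_pos (by linarith)
  have hg0 : (0 : ℝ) < g := by exact_mod_cast hg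
  have hg1 : (1 : ℝ) ≤ g := by exact_mod_cast hg
  set y : ℝ := x / (g : ℝ) ^ 2 with hy
  have hy0 : 0 < y := by positivity
  rcases le_or_gt (g : ℝ) (x ^ (1 / 4 : ℝ)) with hle | hgt
  · -- `y ≥ √x`
    have h1 : x ^ (1 / 2 : ℝ) ≤ y := by
      rw [hy, le_div_iff₀ (by positivity)]
      calc x ^ (1 / 2 : ℝ) * (g : ℝ) ^ 2 ≤ x ^ (1 / 2 : ℝ) * (x ^ (1 / 4 : ℝ)) ^ 2 := by gcongr
        _ = x := by
          rw [← Real.rpow_natCast, ← Real.rpow_mul hx0.le, ← Real.rpow_add hx0]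
          norm_num
    have h2 : 1 < x ^ (1 / 2 : ℝ) := Real.one_lt_rpow (by linarith) (by norm_num)
    have hy1 : 1 < y := by linarith
    have h3 := Chebyshev.pi_le_log4_mul_div hy1
    have h4 : Real.log x / 4 ≤ Real.log √y := by
      rw [Real.log_sqrt hy0.le]
      have := Real.log_le_log (by positivity) h1
      rw [Real.log_rpow hx0] at this
      linarith
    have h5 : Real.log 4 ≤ 1.4 := by
      have : Real.log 4 = 2 * Real.log 2 := by
        rw [show (4 : ℝ) = 2 ^ 2 by norm_num, Real.log_pow]; norm_num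
      rw [this]
      have := Real.log_two_lt_d9
      linarith
    have h6 : Real.log 4 * y / Real.log √y ≤ 1.4 * y / (Real.log x / 4) := by
      have : 0 < Real.log √y := by linarith [div_pos hlog (by norm_num : (0 : ℝ) < 4)]
      gcongr
    have h7 : √y ≤ y * (4 / Real.log x) := by
      have h8 : Real.log x / 4 ≤ √y := by
        have h9 : Real.log √y ≤ √y := (Real.log_le_self (Real.sqrt_nonneg y))
        linarith
      have h10 : √y * √y = y := Real.mul_self_sqrt hy0.le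
      have h11 : 0 < √y := Real.sqrt_pos.mpr hy0
      rw [mul_div_assoc', le_div_iff₀ hlog]
      nlinarith
    have h8 : (Nat.primeCounting ⌊y⌋₊ : ℝ) ≤ 10 * (x / Real.log x) * ((g : ℝ) ^ 2)⁻¹ := by
      have e : y = x * ((g : ℝ) ^ 2)⁻¹ := by rw [hy, div_eq_mul_inv]
      calc (Nat.primeCounting ⌊y⌋₊ : ℝ) ≤ 1.4 * y / (Real.log x / 4) + y * (4 / Real.log x) := by
            linarith
        _ = 9.6 * (x / Real.log x) * ((g : ℝ) ^ 2)⁻¹ := by
            rw [e]; field_simp; ring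
        _ ≤ 10 * (x / Real.log x) * ((g : ℝ) ^ 2)⁻¹ := by
            gcongr; norm_num
    refine h8.trans ?_
    gcongr
    rw [← Real.rpow_natCast, ← Real.rpow_neg hg0.le]
    exact Real.rpow_le_rpow_of_exponent_le hg1 (by norm_num)
  · have h1 : (Nat.primeCounting ⌊y⌋₊ : ℝ) ≤ y := by
      have h2 : Nat.primeCounting ⌊y⌋₊ ≤ ⌊y⌋₊ := by
        rw [Nat.primeCounting, Nat.primeCounting', Nat.count_eq_card_filter_range]
        have h3 : (Finset.range (⌊y⌋₊ + 1)).filter Nat.Prime ⊆ Finset.Icc 1 ⌊y⌋₊ := by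
          intro p hp
          rw [Finset.mem_filter, Finset.mem_range] at hp
          rw [Finset.mem_Icc]
          exact ⟨hp.2.one_le, by omega⟩
        have h4 := Finset.card_le_card h3
        rwa [Nat.card_Icc, Nat.add_sub_cancel] at h4
      exact (by exact_mod_cast h2 : (Nat.primeCounting ⌊y⌋₊ : ℝ) ≤ (⌊y⌋₊ : ℝ)).trans
        (Nat.floor_le hy0.le)
    refine h1.trans ?_
    -- `g ^ (-1/2) ≤ x ^ (-1/8) ≤ 8 / log x`
    have h2 : (g : ℝ) ^ (-(1 / 2) : ℝ) ≤ x ^ (-(1 / 8) : ℝ) := by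
      have h3 : (g : ℝ) ^ (-(1 / 2) : ℝ) ≤ (x ^ (1 / 4 : ℝ)) ^ (-(1 / 2) : ℝ) :=
        Real.rpow_le_rpow_of_nonpos (by positivity) hgt.le (by norm_num)
      rw [← Real.rpow_mul hx0.le] at h3
      norm_num at h3 ⊢
      exact h3
    have h3 : x ^ (-(1 / 8) : ℝ) ≤ 8 / Real.log x := by
      rw [le_div_iff₀ hlog]
      have h4 : Real.log x ≤ 8 * x ^ (1 / 8 : ℝ) := by
        have := Real.log_le_rpow_div hx0.le (by norm_num : (0 : ℝ) < 1 / 8)
        linarith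
      calc x ^ (-(1 / 8) : ℝ) * Real.log x ≤ x ^ (-(1 / 8) : ℝ) * (8 * x ^ (1 / 8 : ℝ)) := by
            gcongr
        _ = 8 := by
            rw [mul_comm, mul_assoc, ← Real.rpow_add hx0]
            norm_num
    calc y = x * (g : ℝ) ^ (-(3 / 2) : ℝ) * (g : ℝ) ^ (-(1 / 2) : ℝ) := by
          rw [mul_assoc, ← Real.rpow_add hg0, hy, div_eq_mul_inv, ← Real.rpow_natCast,
            ← Real.rpow_neg hg0.le]
          norm_num
      _ ≤ x * (g : ℝ) ^ (-(3 / 2) : ℝ) * (8 / Real.log x) := by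
          gcongr
          exact h2.trans h3
      _ = 8 * (x / Real.log x) * (g : ℝ) ^ (-(3 / 2) : ℝ) := by ring
      _ ≤ 10 * (x / Real.log x) * (g : ℝ) ^ (-(3 / 2) : ℝ) := by
          gcongr; norm_num

/-- the integers `g² p ≤ x` -/
noncomputable def S1 (x : ℝ) : Finset ℕ :=
  (Finset.Icc 1 ⌊x⌋₊).biUnion fun g =>
    ((Finset.range (⌊x / (g : ℝ) ^ 2⌋₊ + 1)).filter Nat.Prime).image fun p => g ^ 2 * p

theorem S1_card : ∃ K : ℝ, 0 ≤ K ∧ ∀ x : ℝ, 2 ≤ x → ((S1 x).card : ℝ) ≤ K * (x / Real.log x) := by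
  have hs : Summable (fun n : ℕ => (n : ℝ) ^ (-(3 / 2) : ℝ)) :=
    Real.summable_nat_rpow.mpr (by norm_num)
  refine ⟨10 * ∑' n : ℕ, (n : ℝ) ^ (-(3 / 2) : ℝ), ?_, fun x hx => ?_⟩
  · have : 0 ≤ ∑' n : ℕ, (n : ℝ) ^ (-(3 / 2) : ℝ) := tsum_nonneg fun n => by positivity
    positivity
  have hlog : 0 < Real.log x := Real.log_pos (by linarith)
  have h1 : ((S1 x).card : ℝ) ≤
      ∑ g ∈ Finset.Icc 1 ⌊x⌋₊, (Nat.primeCounting ⌊x / (g : ℝ) ^ 2⌋₊ : ℝ) := by
    have h2 : (S1 x).card ≤ ∑ g ∈ Finset.Icc 1 ⌊x⌋₊, Nat.primeCounting ⌊x / (g : ℝ) ^ 2⌋₊ := by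
      refine Finset.card_biUnion_le.trans (Finset.sum_le_sum fun g _ => ?_)
      refine Finset.card_image_le.trans ?_
      rw [Nat.primeCounting, Nat.primeCounting', Nat.count_eq_card_filter_range]
    exact_mod_cast h2
  calc ((S1 x).card : ℝ) ≤ ∑ g ∈ Finset.Icc 1 ⌊x⌋₊, (Nat.primeCounting ⌊x / (g : ℝ) ^ 2⌋₊ : ℝ) := h1
    _ ≤ ∑ g ∈ Finset.Icc 1 ⌊x⌋₊, 10 * (x / Real.log x) * (g : ℝ) ^ (-(3 / 2) : ℝ) :=
        Finset.sum_le_sum fun g hg => prime_bound hx (Finset.mem_Icc.mp hg).1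
    _ = 10 * (x / Real.log x) * ∑ g ∈ Finset.Icc 1 ⌊x⌋₊, (g : ℝ) ^ (-(3 / 2) : ℝ) := by
        rw [Finset.mul_sum]
    _ ≤ 10 * (x / Real.log x) * ∑' n : ℕ, (n : ℝ) ^ (-(3 / 2) : ℝ) := by
        have : 0 ≤ 10 * (x / Real.log x) := by positivity
        refine mul_le_mul_of_nonneg_left ?_ this
        exact hs.sum_le_tsum _ fun n _ => by positivity
    _ = _ := by ring

/-- the members of `V` up to `x` -/
theorem V_sub {x : ℝ} (hx : 2 ≤ x) : {m : ℕ | m ∈ V ∧ 1 < m ∧ (m : ℝ) ≤ x} ⊆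
    ((S1 x ∪ (S1 x).image (fun m => 2 * m) ∪ (Finset.range (⌊√x⌋₊ + 1)).image (fun k => k ^ 2) ∪
      (Finset.range (⌊√x⌋₊ + 1)).image (fun a => 3 * a ^ 2 + 3 * a ^ 3) : Finset ℕ) : Set ℕ) := by
  have hx0 : 0 ≤ x := by linarith
  have key : ∀ g p : ℕ, 1 ≤ g → p.Prime → ((g ^ 2 * p : ℕ) : ℝ) ≤ x → g ^ 2 * p ∈ S1 x := by
    intro g p hg hp h
    have hg0 : (0 : ℝ) < g := by exact_mod_cast hg
    refine Finset.mem_biUnion.mpr ⟨g, Finset.mem_Icc.mpr ⟨hg, ?_⟩, Finset.mem_image.mpr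
      ⟨p, Finset.mem_filter.mpr ⟨Finset.mem_range.mpr ?_, hp⟩, rfl⟩⟩
    · refine Nat.le_floor (le_trans ?_ h)
      have : g ≤ g ^ 2 * p := by
        have := hp.one_le
        nlinarith [Nat.mul_le_mul hg this]
      exact_mod_cast this
    · refine Nat.lt_succ_of_le (Nat.le_floor ?_)
      rw [le_div_iff₀ (by positivity)]
      push_cast at h
      linarith
  rintro m ⟨hm, h1m, hmx⟩
  simp only [Finset.coe_union, Set.mem_union, Finset.mem_coe]
  rcases hm with ⟨g, p, hg, hp, rfl⟩ | ⟨g, p, hg, hp, rfl⟩ | ⟨k, rfl⟩ | ⟨a, rfl⟩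
  · exact Or.inl (Or.inl (Or.inl (key g p hg hp hmx)))
  · refine Or.inl (Or.inl (Or.inr (Finset.mem_image.mpr ⟨g ^ 2 * p, key g p hg hp ?_, rfl⟩)))
    refine le_trans ?_ hmx
    exact_mod_cast Nat.le_mul_of_pos_left _ (by norm_num)
  · refine Or.inl (Or.inr (Finset.mem_image.mpr ⟨k, Finset.mem_range.mpr ?_, rfl⟩))
    refine Nat.lt_succ_of_le (Nat.le_floor (Real.le_sqrt_of_sq_le ?_))
    exact_mod_cast hmx
  · refine Or.inr (Finset.mem_image.mpr ⟨a, Finset.mem_range.mpr ?_, rfl⟩)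
    refine Nat.lt_succ_of_le (Nat.le_floor (Real.le_sqrt_of_sq_le (le_trans ?_ hmx)))
    push_cast
    have : (0 : ℝ) ≤ (a : ℝ) ^ 3 := by positivity
    nlinarith [sq_nonneg (a : ℝ)]

/-- **The upper bound.** The number of `m ≤ x`, `m > 1`, with exactly one minimal `m`-Markoff triple
is `O(x / log x)`. -/
theorem result : (fun x : ℝ => ({m : ℕ | m ∈ U ∧ (m : ℝ) ≤ x}.ncard : ℝ)) =O[atTop]
    (fun x : ℝ => x / Real.log x) := by
  obtain ⟨K, hK0, hK⟩ := S1_card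
  refine IsBigO.of_bound (2 * K + 8) ?_
  filter_upwards [eventually_ge_atTop 2] with x hx
  have hx0 : 0 < x := by linarith
  have hlog : 0 < Real.log x := Real.log_pos (by linarith)
  have hsub : {m : ℕ | m ∈ U ∧ (m : ℝ) ≤ x} ⊆ {m : ℕ | m ∈ V ∧ 1 < m ∧ (m : ℝ) ≤ x} :=
    fun m hm => ⟨U_sub_V hm.1, hm.1.1, hm.2⟩
  have h1 := Set.ncard_le_ncard (hsub.trans (V_sub hx)) (Finset.finite_toSet _)
  rw [Set.ncard_coe_finset] at h1
  have h2 : ({m : ℕ | m ∈ U ∧ (m : ℝ) ≤ x}.ncard : ℝ) ≤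
      2 * ((S1 x).card : ℝ) + 2 * ((⌊√x⌋₊ : ℝ) + 1) := by
    have h3 : {m : ℕ | m ∈ U ∧ (m : ℝ) ≤ x}.ncard ≤
        (S1 x).card + (S1 x).card + (⌊√x⌋₊ + 1) + (⌊√x⌋₊ + 1) := by
      refine h1.trans ?_
      refine (Finset.card_union_le _ _).trans (Nat.add_le_add ?_ ?_)
      · refine (Finset.card_union_le _ _).trans (Nat.add_le_add ?_ ?_)
        · exact (Finset.card_union_le _ _).trans (Nat.add_le_add le_rfl Finset.card_image_le)
        · exact Finset.card_image_le.trans (by rw [Finset.card_range])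
      · exact Finset.card_image_le.trans (by rw [Finset.card_range])
    have h4 : ({m : ℕ | m ∈ U ∧ (m : ℝ) ≤ x}.ncard : ℝ) ≤
        (((S1 x).card + (S1 x).card + (⌊√x⌋₊ + 1) + (⌊√x⌋₊ + 1) : ℕ) : ℝ) := by exact_mod_cast h3
    push_cast at h4
    linarith
  have h3 : (⌊√x⌋₊ : ℝ) ≤ √x := Nat.floor_le (Real.sqrt_nonneg x)
  have h4 : √x ≤ 2 * (x / Real.log x) := by
    have h5 : Real.log x ≤ 2 * √x := by
      have h6 : Real.log √x ≤ √x := Real.log_le_self (Real.sqrt_nonneg x)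
      rw [Real.log_sqrt hx0.le] at h6
      linarith
    have h7 : √x * √x = x := Real.mul_self_sqrt hx0.le
    have h8 : 0 < √x := Real.sqrt_pos.mpr hx0
    rw [mul_div_assoc', le_div_iff₀ hlog]
    nlinarith
  have h5 : 1 ≤ √x := Real.one_le_sqrt.mpr (by linarith)
  have h6 := hK x hx
  rw [Real.norm_of_nonneg (Nat.cast_nonneg _), Real.norm_of_nonneg (by positivity)]
  linarith

end Pool.Agent.Results.MP_3400ab_nt.UpperBound
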